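import Pool.Agent.H424R2.PPAD.Defs
import Pool.Agent.Q324.LB.Gap

/-!
# Unanimity lobbying with a slowly growing quota of issues

If `min (z m) (m - z m)` is at least `k` on a set of numbers `m` with polynomially bounded gaps, for every `k`,
and the problem `OLD(Unan, ψ_z)` is solvable in polynomial time, then every problem in W[1] is
fixed-parameter tractable.

The definitions `Inst`, `cols`, `Valid`, `Old` are in `Pool/Agent/Q324/LB/Stmts.lean`; `InW1`, `IsFpt`,
`FptTime` in `Pool/Agent/H633R2/FptDefs.lean`; `UF` in `Pool/Agent/H633R2/FptPad.lean`; `PTime` in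
`Pool/Agent/H424R2/PPAD/Defs.lean`.
-/

set_option autoImplicit false

namespace Pool.Agent.Results.MP_8eff38_lc.SlowQuotas

open Pool.Agent.NPC Pool.Agent.NPC.H633 Pool.Agent.H633R2 Pool.Agent.H424R2.PPAD Pool.Agent.Q324.LB

/-- **Unanimity lobbying with quota `z` is not in P unless W[1] = FPT**, for every `z` such that for all `k`
and `n` there is `m` with `n ≤ m ≤ t(k) (n + 1) ^ c` for which both `z m` and `m - z m` are at least `k`; here
`c` is a constant and `t` a computable function (computed in unary by a Turing machine within a computable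
number of steps). This includes the case that `min (z m) (m - z m)` tends to infinity with a computable
rate, however slowly. The algorithm has to be correct only on the valid instances; nothing is assumed on the
complexity of `z`. -/
theorem result (z : ℕ → ℕ) (hz : ∀ m, z m ≤ m) (t : ℕ → ℕ) (ht : UF t) (c : ℕ)
    (hgap : ∀ k n, ∃ m, n ≤ m ∧ m ≤ t k * (n + 1) ^ c ∧ k ≤ z m ∧ k ≤ m - z m)
    (h : ∃ d : Inst → Bool, PTime d ∧ ∀ x, Valid x → (d x = true ↔ Old z x)) :
    ∀ (α : Type) [TEnc α] (κ : α → ℕ) (P : α → Prop), InW1 κ P → IsFpt κ P := by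
  obtain ⟨d, hd, hdc⟩ := h
  intro α _ κ P hP
  exact IsFpt.of_reduces hP (main2 z t c hz ht hgap d hd.toPoly hdc)

end Pool.Agent.Results.MP_8eff38_lc.SlowQuotas
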